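import Mathlib
import Pool.Agent.H304R3.Corner

set_option autoImplicit false

namespace Pool.Agent.Results.MP_f16d24_co.PartitionRegular

/-- **Main result.** The pattern `{x, x + d, x + 1/d}` is partition regular over `ℚ`. Moreover `d`
can be taken to be a positive integer larger than any prescribed bound `D`. -/
theorem result : ∀ (r : ℕ) (c : ℚ → Fin r) (D : ℕ), ∃ (x : ℚ) (d : ℕ), D < d ∧
    c (x + (d : ℚ)) = c x ∧ c (x + 1 / (d : ℚ)) = c x := by
  intro r c D
  obtain ⟨P, N, hP, H⟩ := Pool.Agent.H304R3.Corner.corner r r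
  obtain ⟨i, j, a, b, ha, hb, hab, -, -, h1, h2⟩ :=
    H (fun i j => c ((D + 1 : ℚ) * i + (j : ℚ) / ((P : ℚ) * (D + 1)))) Finset.univ (by simp)
      (fun _ _ _ _ => Finset.mem_univ _)
  have hP' : (P : ℚ) ≠ 0 := by exact_mod_cast (by omega : P ≠ 0)
  have hD' : (D + 1 : ℚ) ≠ 0 := by positivity
  have ha' : (a : ℚ) ≠ 0 := by exact_mod_cast (by omega : a ≠ 0)
  have hab' : (a : ℚ) * b = P := by exact_mod_cast hab
  refine ⟨(D + 1 : ℚ) * i + (j : ℚ) / ((P : ℚ) * (D + 1)), (D + 1) * a, ?_, ?_, ?_⟩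
  · calc D < D + 1 := Nat.lt_succ_self D
      _ = (D + 1) * 1 := (Nat.mul_one _).symm
      _ ≤ (D + 1) * a := Nat.mul_le_mul_left _ ha
  · rw [← h1]
    congr 1
    push_cast
    ring
  · rw [← h2]
    congr 1
    rw [← hab'] at hP' ⊢
    have hb' : (b : ℚ) ≠ 0 := by
      intro h
      rw [h, mul_zero] at hP'
      exact hP' rfl
    push_cast
    field_simp
    ring

end Pool.Agent.Results.MP_f16d24_co.PartitionRegular
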